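import Pool.Agent.H699.MW.Gr

set_option autoImplicit false
set_option linter.unusedSectionVars false

open MeasureTheory Finset
open scoped Classical

namespace Pool.Agent.H370.MW.THR

open Pool.Agent.H699.MW

section

variable {V : Type} [Fintype V]

theorem mem_mats {G : SimpleGraph V} {S : Finset V} {M : Finset (Sym2 V)} :
    M ∈ mats G S ↔ IsM G S M := by
  simp [mats]

theorem le_opt (G : SimpleGraph V) (ω : Sym2 V → ℝ) (S : Finset V) {M : Finset (Sym2 V)}
    (h : IsM G S M) : ∑ e ∈ M, ω e ≤ opt G ω S :=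
  Finset.le_sup' (fun M => ∑ e ∈ M, ω e) (mem_mats.2 h)

theorem exists_opt (G : SimpleGraph V) (ω : Sym2 V → ℝ) (S : Finset V) :
    ∃ M, IsM G S M ∧ opt G ω S = ∑ e ∈ M, ω e := by
  obtain ⟨M, hM, h⟩ := Finset.exists_mem_eq_sup' (s := mats G S) ⟨∅, empty_mem_mats G S⟩
    (fun M => ∑ e ∈ M, ω e)
  exact ⟨M, mem_mats.1 hM, h⟩

theorem opt_le (G : SimpleGraph V) (ω : Sym2 V → ℝ) (S : Finset V) (c : ℝ)
    (h : ∀ M, IsM G S M → ∑ e ∈ M, ω e ≤ c) : opt G ω S ≤ c := by
  obtain ⟨M, hM, h1⟩ := exists_opt G ω S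
  rw [h1]
  exact h M hM

theorem isM_del (G : SimpleGraph V) (S : Finset V) (M : Finset (Sym2 V)) (e : Sym2 V) :
    IsM (G.deleteEdges {e}) S M ↔ IsM G S M ∧ e ∉ M := by
  unfold IsM
  rw [SimpleGraph.edgeSet_deleteEdges]
  constructor
  · rintro ⟨h1, h2⟩
    refine ⟨⟨fun f hf => ⟨(h1 f hf).1.1, (h1 f hf).2⟩, h2⟩, fun he => ?_⟩
    exact (h1 e he).1.2 rfl
  · rintro ⟨⟨h1, h2⟩, h3⟩
    refine ⟨fun f hf => ⟨⟨(h1 f hf).1, fun h => ?_⟩, (h1 f hf).2⟩, h2⟩
    rw [Set.mem_singleton_iff] at h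
    exact h3 (h ▸ hf)

theorem isM_two (G : SimpleGraph V) (S : Finset V) (u v : V) (M : Finset (Sym2 V))
    (h : IsM G ((S.erase u).erase v) M) : s(u, v) ∉ M := by
  intro he
  have h1 := (h.1 _ he).2 u (Sym2.mem_mk_left u v)
  simp at h1

theorem isM_insert (G : SimpleGraph V) (S : Finset V) (u v : V) (hG : G.Adj u v) (hu : u ∈ S)
    (hv : v ∈ S) (M : Finset (Sym2 V)) (h : IsM G ((S.erase u).erase v) M) :
    IsM G S (insert s(u, v) M) := by
  have hdis : ∀ f ∈ M, ∀ x, x ∈ s(u, v) → x ∉ f := by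
    intro f hf x hx hxf
    have h1 := (h.1 f hf).2 x hxf
    rw [Finset.mem_erase, Finset.mem_erase] at h1
    rcases Sym2.mem_iff.1 hx with h2 | h2
    · exact h1.2.1 h2
    · exact h1.1 h2
  refine ⟨fun f hf => ?_, fun f hf g hg hfg x hxf hxg => ?_⟩
  · rcases Finset.mem_insert.1 hf with rfl | hf
    · refine ⟨hG, fun x hx => ?_⟩
      rcases Sym2.mem_iff.1 hx with rfl | rfl
      · exact hu
      · exact hv
    · refine ⟨(h.1 f hf).1, fun x hx => ?_⟩
      have h1 := (h.1 f hf).2 x hx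
      rw [Finset.mem_erase, Finset.mem_erase] at h1
      exact h1.2.2
  · rcases Finset.mem_insert.1 hf with hf' | hf'
    · rcases Finset.mem_insert.1 hg with hg' | hg'
      · exact hfg (hf'.trans hg'.symm)
      · exact hdis g hg' x (hf' ▸ hxf) hxg
    · rcases Finset.mem_insert.1 hg with hg' | hg'
      · exact hdis f hf' x (hg' ▸ hxg) hxf
      · exact h.2 f hf' g hg' hfg x hxf hxg

theorem isM_erase (G : SimpleGraph V) (S : Finset V) (u v : V) (M : Finset (Sym2 V))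
    (h : IsM G S M) (he : s(u, v) ∈ M) : IsM G ((S.erase u).erase v) (M.erase s(u, v)) := by
  refine ⟨fun f hf => ?_, fun f hf g hg => h.2 f (Finset.mem_of_mem_erase hf) g
    (Finset.mem_of_mem_erase hg)⟩
  have hfM := Finset.mem_of_mem_erase hf
  have hne := Finset.ne_of_mem_erase hf
  refine ⟨(h.1 f hfM).1, fun x hx => ?_⟩
  rw [Finset.mem_erase, Finset.mem_erase]
  refine ⟨?_, ?_, (h.1 f hfM).2 x hx⟩
  · rintro rfl
    exact h.2 f hfM _ he hne x hx (Sym2.mem_mk_right u x)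
  · rintro rfl
    exact h.2 f hfM _ he hne x hx (Sym2.mem_mk_left x v)

end

theorem t_THR : S_THR := by
  intro V _ G ω S u v hG hu hv
  have h2 : opt (G.deleteEdges {s(u, v)}) ω ((S.erase u).erase v) =
      opt G ω ((S.erase u).erase v) := by
    apply le_antisymm
    · exact opt_le _ _ _ _ fun M hM => le_opt G ω _ ((isM_del G _ M _).1 hM).1
    · exact opt_le _ _ _ _ fun M hM => le_opt _ ω _ ((isM_del G _ M _).2
        ⟨hM, isM_two G S u v M hM⟩)
  have hsum : X (G.deleteEdges {s(u, v)}) ω S u + X (G.deleteEdges {s(u, v)}) ω (S.erase u) v =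
      opt (G.deleteEdges {s(u, v)}) ω S - opt G ω ((S.erase u).erase v) := by
    unfold X
    rw [h2]
    ring
  rw [hsum]
  have h1 : ∀ M, IsM G S M → s(u, v) ∈ M →
      ∑ e ∈ M, ω e ≤ ω s(u, v) + opt G ω ((S.erase u).erase v) := by
    intro M hM he
    rw [← Finset.add_sum_erase M ω he]
    have := le_opt G ω _ (isM_erase G S u v M hM he)
    linarith
  constructor
  · rintro ⟨M, hM, he, hopt⟩
    have h3 := h1 M (mem_mats.1 hM) he
    have h4 : opt (G.deleteEdges {s(u, v)}) ω S ≤ opt G ω S :=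
      opt_le _ _ _ _ fun N hN => le_opt G ω _ ((isM_del G _ N _).1 hN).1
    linarith
  · intro h
    obtain ⟨M2, hM2, hopt2⟩ := exists_opt G ω ((S.erase u).erase v)
    have hM := isM_insert G S u v hG hu hv M2 hM2
    have hw : ∑ f ∈ insert s(u, v) M2, ω f = ω s(u, v) + opt G ω ((S.erase u).erase v) := by
      rw [Finset.sum_insert (isM_two G S u v M2 hM2), hopt2]
    refine ⟨insert s(u, v) M2, mem_mats.2 hM, Finset.mem_insert_self _ _, ?_⟩
    apply le_antisymm (le_opt G ω S hM)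
    rw [hw]
    refine opt_le _ _ _ _ fun N hN => ?_
    by_cases he : s(u, v) ∈ N
    · exact h1 N hN he
    · have := le_opt _ ω S ((isM_del G S N s(u, v)).2 ⟨hN, he⟩)
      linarith

end Pool.Agent.H370.MW.THR
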